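import Pool.Agent.V5helper19.QC.Stm2

set_option autoImplicit false

namespace V5helper65.QC

open Finset V5helper19.QC Pool.Agent.Results.MP_532027_co.LeastTNot75 intervalIntegral

/-- the integrand of the Fourier coefficient -/
noncomputable def FF (p : Polynomial ℤ) (q : ℝ) (l : ℕ) (θ : ℝ) : ℂ :=
  (Polynomial.aeval ((q : ℂ) * Complex.exp (-((θ : ℂ) * Complex.I))) p) *
    Complex.exp ((l : ℂ) * (θ : ℂ) * Complex.I)

theorem FF_cont (p : Polynomial ℤ) (q : ℝ) (l : ℕ) : Continuous (FF p q l) := by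
  unfold FF
  apply Continuous.mul
  · have h1 : Continuous fun θ : ℝ => (q : ℂ) * Complex.exp (-((θ : ℂ) * Complex.I)) := by fun_prop
    exact (Polynomial.continuous_aeval p).comp h1
  · fun_prop

theorem FF_succ (p : Polynomial ℤ) (q : ℝ) (l : ℕ) (θ : ℝ) :
    FF p q l θ * Complex.exp ((θ : ℂ) * Complex.I) = FF p q (l + 1) θ := by
  unfold FF
  rw [mul_assoc, ← Complex.exp_add]
  congr 2
  push_cast
  ring

theorem FF_pred (p : Polynomial ℤ) (q : ℝ) (l : ℕ) (θ : ℝ) :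
    FF p q (l + 1) θ * Complex.exp (-((θ : ℂ) * Complex.I)) = FF p q l θ := by
  rw [← FF_succ, mul_assoc, ← Complex.exp_add, add_neg_cancel, Complex.exp_zero, mul_one]

theorem int_FF (h : S_FOUR) (p : Polynomial ℤ) (q : ℝ) (hq : 0 < q) (l : ℕ) :
    ∫ θ in (-Real.pi)..Real.pi, FF p q l θ = ((2 * Real.pi * (p.coeff l : ℝ) * q ^ l : ℝ) : ℂ) := by
  have := h p l q hq
  unfold FF
  rw [this]
  push_cast
  ring

/-- the main case -/
theorem half (hM : S_MAIN) (hF : S_FOUR) (hP : S_POLY) : ∃ t n0 : ℕ, ∀ n k : ℕ, n0 ≤ n → t ≤ k →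
    2 * (k + 1) ≤ n * (n - 1) →
    (qCat n).coeff k * (qCat n).coeff (k + 2) ≤ (qCat n).coeff (k + 1) ^ 2 := by
  obtain ⟨t, n0, h⟩ := hM
  refine ⟨t, max n0 1, ?_⟩
  intro n k hn hk hkn
  obtain ⟨α, g, hα, hg, hgg, i1, i2, i3⟩ := h n (k + 1) ((le_max_left _ _).trans hn) (by omega) hkn
  have hn1 : 1 ≤ n := (le_max_right _ _).trans hn
  obtain ⟨q, hq⟩ : ∃ q : ℝ, q = Real.exp (-α) := ⟨_, rfl⟩
  have hq0 : 0 < q := by rw [hq]; exact Real.exp_pos _
  have hq1 : q < 1 := by rw [hq, ← Real.exp_zero]; exact Real.exp_lt_exp.2 (by linarith)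
  have hpsi : ∀ θ : ℝ, psi n (k + 1) α θ = (1 / (g : ℂ)) * FF (qCat n) q (k + 1) θ := by
    intro θ
    have e1 : Complex.exp (-(zz α θ)) = (q : ℂ) * Complex.exp (-((θ : ℂ) * Complex.I)) := by
      rw [hq, zz, neg_add, Complex.exp_add]
      push_cast
      rfl
    have e2 : ‖(q : ℂ) * Complex.exp (-((θ : ℂ) * Complex.I))‖ < 1 := by
      rw [norm_mul, Complex.norm_real, Real.norm_of_nonneg hq0.le]
      have : ‖Complex.exp (-((θ : ℂ) * Complex.I))‖ = 1 := by
        rw [← neg_mul, ← Complex.ofReal_neg]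
        exact Complex.norm_exp_ofReal_mul_I _
      rw [this, mul_one]
      exact hq1
    have e3 : GZ n (zz α θ) =
        Polynomial.aeval ((q : ℂ) * Complex.exp (-((θ : ℂ) * Complex.I))) (qCat n) := by
      rw [GZ, e1, hP n _ hn1 e2]
    unfold psi FF
    rw [e3, hgg]
    push_cast
    ring
  have hint : ∀ l, IntervalIntegrable (FF (qCat n) q l) MeasureTheory.volume (-Real.pi) Real.pi :=
    fun l => (FF_cont (qCat n) q l).intervalIntegrable _ _
  have J : ∀ l, ∫ θ in (-Real.pi)..Real.pi, FF (qCat n) q l θ =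
      ((2 * Real.pi * ((qCat n).coeff l : ℝ) * q ^ l : ℝ) : ℂ) := int_FF hF (qCat n) q hq0
  have f2 : (fun θ : ℝ => psi n (k + 1) α θ * Complex.exp ((θ : ℂ) * Complex.I)) =
      fun θ => (1 / (g : ℂ)) * FF (qCat n) q (k + 2) θ := by
    funext θ
    rw [hpsi, mul_assoc, FF_succ]
  have f3 : (fun θ : ℝ => psi n (k + 1) α θ * Complex.exp (-((θ : ℂ) * Complex.I))) =
      fun θ => (1 / (g : ℂ)) * FF (qCat n) q k θ := by
    funext θ
    rw [hpsi, mul_assoc, FF_pred]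
  have f1 : (fun θ : ℝ => psi n (k + 1) α θ * (1 - Complex.cos (θ : ℂ))) =
      fun θ => (1 / (g : ℂ)) * (FF (qCat n) q (k + 1) θ -
        (1 / 2) * (FF (qCat n) q (k + 2) θ + FF (qCat n) q k θ)) := by
    funext θ
    have e4 : Complex.cos (θ : ℂ) =
        (Complex.exp ((θ : ℂ) * Complex.I) + Complex.exp (-((θ : ℂ) * Complex.I))) / 2 := by
      rw [Complex.cos]
      rw [neg_mul]
    rw [hpsi, ← FF_succ (qCat n) q (k + 1) θ, ← FF_pred (qCat n) q k θ, e4]
    ring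
  rw [f2, integral_const_mul, J] at i2
  rw [f3, integral_const_mul, J] at i3
  rw [f1, integral_const_mul, integral_sub (hint _) (((hint _).add (hint _)).const_mul _),
    integral_const_mul, integral_add (hint _) (hint _), J, J, J] at i1
  obtain ⟨P, hPd⟩ : ∃ P : ℕ → ℝ, P = fun l => 2 * Real.pi * ((qCat n).coeff l : ℝ) * q ^ l := ⟨_, rfl⟩
  have hPl : ∀ l, 2 * Real.pi * ((qCat n).coeff l : ℝ) * q ^ l = P l := fun l => by rw [hPd]
  rw [hPl] at i2 i3
  rw [hPl, hPl, hPl] at i1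
  have r2 : (1 / (g : ℂ)) * (P (k + 2) : ℂ) = ((1 / g * P (k + 2) : ℝ) : ℂ) := by push_cast; ring
  have r3 : (1 / (g : ℂ)) * (P k : ℂ) = ((1 / g * P k : ℝ) : ℂ) := by push_cast; ring
  have r1 : (1 / (g : ℂ)) * ((P (k + 1) : ℂ) - (1 / 2) * ((P (k + 2) : ℂ) + (P k : ℂ))) =
      ((1 / g * (P (k + 1) - (1 / 2) * (P (k + 2) + P k)) : ℝ) : ℂ) := by push_cast; ring
  rw [r2, Complex.ofReal_re] at i2
  rw [r3, Complex.ofReal_re] at i3
  rw [r1, Complex.ofReal_re] at i1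
  have hg' : 0 < 1 / g := by positivity
  have s2 : 0 < P (k + 2) := (mul_pos_iff_of_pos_left hg').1 i2
  have s3 : 0 < P k := (mul_pos_iff_of_pos_left hg').1 i3
  have s1 : 0 < P (k + 1) - (1 / 2) * (P (k + 2) + P k) := (mul_pos_iff_of_pos_left hg').1 i1
  have s4 : P k * P (k + 2) ≤ P (k + 1) ^ 2 := by
    have e5 : ((1 / 2) * (P (k + 2) + P k)) ^ 2 ≤ P (k + 1) ^ 2 :=
      pow_le_pow_left₀ (by linarith) (by linarith) 2
    nlinarith [sq_nonneg (P (k + 2) - P k)]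
  rw [← hPl, ← hPl, ← hPl] at s4
  have s5 : (((qCat n).coeff k : ℝ) * ((qCat n).coeff (k + 2) : ℝ)) * (2 * Real.pi * q ^ (k + 1)) ^ 2 ≤
      ((qCat n).coeff (k + 1) : ℝ) ^ 2 * (2 * Real.pi * q ^ (k + 1)) ^ 2 := by
    refine le_trans (le_of_eq ?_) (s4.trans (le_of_eq ?_)) <;> ring
  have s6 : 0 < (2 * Real.pi * q ^ (k + 1)) ^ 2 := by
    have := Real.pi_pos
    positivity
  have s7 := le_of_mul_le_mul_right s5 s6
  exact_mod_cast s7

theorem t_END : S_END := by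
  intro hM hF hP
  obtain ⟨t, n0, h⟩ := half hM hF hP
  refine ⟨t, max n0 2, ?_⟩
  intro n hn k hk1 hk2
  have hn2 : 2 ≤ n := (le_max_right _ _).trans hn
  have hnn : ((n * (n - 1) : ℕ) : ℤ) = (n : ℤ) * (n - 1) := by
    rw [Nat.cast_mul, Nat.cast_sub (by omega)]
    rfl
  have key : ∀ l : ℤ, (t : ℤ) + 1 ≤ l → 2 * l ≤ (n : ℤ) * (n - 1) →
      m n (l - 1) * m n (l + 1) ≤ m n l ^ 2 := by
    intro l hl1 hl2
    obtain ⟨j, hj⟩ : ∃ j : ℕ, l = j + 1 := ⟨(l - 1).toNat, by omega⟩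
    have h1 := h n j ((le_max_left _ _).trans hn) (by omega) (by
      have : ((2 * (j + 1) : ℕ) : ℤ) ≤ ((n * (n - 1) : ℕ) : ℤ) := by
        rw [hnn]
        push_cast
        rw [← hj]
        exact hl2
      exact_mod_cast this)
    have e1 : m n (l - 1) = (qCat n).coeff j := by
      rw [m, if_pos (by omega)]
      congr 1
      omega
    have e2 : m n (l + 1) = (qCat n).coeff (j + 2) := by
      rw [m, if_pos (by omega)]
      congr 1
      omega
    have e3 : m n l = (qCat n).coeff (j + 1) := by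
      rw [m, if_pos (by omega)]
      congr 1
      omega
    rw [e1, e2, e3]
    exact h1
  rcases le_total (2 * k) ((n : ℤ) * (n - 1)) with hc | hc
  · exact key k hk1 hc
  · have h1 := key ((n : ℤ) * (n - 1) - k) (by linarith) (by linarith)
    rw [m_symm n (k - 1) ((n : ℤ) * (n - 1) - k + 1) (by omega) (by linarith) (by ring),
      m_symm n (k + 1) ((n : ℤ) * (n - 1) - k - 1) (by omega) (by linarith) (by ring),
      m_symm n k ((n : ℤ) * (n - 1) - k) (by omega) (by linarith) (by ring), mul_comm]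
    exact h1

end V5helper65.QC
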